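import Pool.Agent.Helper57.RG.Embed

/-!
# MP_397c7d_co, Q1: the lattices `R(G)`, `G` a finite graph, satisfy no nontrivial lattice identity

For every lattice identity `s = t` which fails in some lattice there is a finite graph `G` such that
the lattice `R(G)` of the regular closed families of connected vertex sets of `G` fails it; that is,
the lattices `R(G)` generate the variety of all lattices.

Proof. Let `E` be a finite poset. The vertices of the graph `G` are the upper sets of `E`; two
different upper sets `U, W` are adjacent if every non-minimal element of `U` belongs to `W` and every
non-minimal element of `W` belongs to `U`. For `x < y` the set `iv x y` of all upper sets which contain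
`y` but not `x` is connected, and `iv x z` is the disjoint union of `iv x y` and `iv y z` for
`x < y < z`. There is a function `q` from the vertices to the integers such that the connected
vertex sets with total charge `0` are exactly the sets `iv x y`, `x < y`. Since charges are
additive, one may put all connected sets of negative charge into a family and leave all connected
sets of positive charge out: this turns every transitive set `a` of pairs `x < y` of `E` into a
closed family, commutes with closures and interiors, and embeds the lattice of the regular closed
sets of pairs (the extended permutohedron of `E`) into `R(G)`. The extended permutohedra of the finite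
posets satisfy no nontrivial lattice identity (the library theorem
`Results/MP_5c7113_al/NoLatticeIdentity`, whose proof by good measures and doublings of intervals is
taken over in `Helper57/RG/Meas`).
-/

set_option autoImplicit false

universe u

namespace Pool.Agent.Results.MP_397c7d_co.GraphsNoIdentity

open Pool.Agent.Helper57.RG

/-- **MP_397c7d_co, Q1 has a negative answer.** Every lattice identity `s = t` which fails in some
lattice fails in the lattice `R(G)` of some finite graph `G`. -/
theorem result (s t : LTerm) (hst : ∃ (L : Type u) (_ : Lattice L) (v : ℕ → L),
    s.eval v ≠ t.eval v) :
    ∃ (V : Type) (_ : Finite V) (G : SimpleGraph V) (v : ℕ → R G), s.eval v ≠ t.eval v := by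
  obtain ⟨L, _, v, hne⟩ := hst
  rcases holds_or_fail.{u} s t with h1 | h1
  · rcases holds_or_fail.{u} t s with h2 | h2
    · exact absurd (le_antisymm (h1 v) (h2 v)) hne
    · obtain ⟨V, i1, G, w, hw⟩ := graph_of_fail h2
      exact ⟨V, i1, G, w, fun h => hw h.ge⟩
  · obtain ⟨V, i1, G, w, hw⟩ := graph_of_fail h1
    exact ⟨V, i1, G, w, fun h => hw h.le⟩

end Pool.Agent.Results.MP_397c7d_co.GraphsNoIdentity
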